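import Pool.Agent.W477.GM.Stms

/-!
# GM-SYSC: the flips form a symmetric system
-/

set_option maxHeartbeats 1000000
set_option linter.all false

namespace Pool.Agent.W477.GM.Sysc402

open Pool.Agent.W477.GM

section

variable {C : Type} {L : C → ℕ∞}

theorem fl_bit (z : J → Ordinal.{0} → Bool) (p : Cn C L) (j : J) (o : Ordinal.{0})
    (h : o < p.len j) : (fl z p).bit j o = xor (p.bit j o) (z j o) := by
  simp only [fl]
  rw [if_pos h]

theorem fl_zero (p : Cn C L) : fl (fun _ _ => false) p = p := by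
  refine Cn.ext' rfl (fun j => rfl) (fun j o ho => ?_)
  have ho' : o < p.len j := ho
  rw [fl_bit _ _ _ _ ho']
  exact Bool.xor_false _

theorem fl_fl (z w : J → Ordinal.{0} → Bool) (p : Cn C L) :
    fl z (fl w p) = fl (fun j o => xor (z j o) (w j o)) p := by
  refine Cn.ext' rfl (fun j => rfl) (fun j o ho => ?_)
  have h1 : o < (fl w p).len j := ho
  have h2 : o < p.len j := ho
  rw [fl_bit _ _ _ _ h1, fl_bit _ _ _ _ h2, fl_bit _ _ _ _ h2, Bool.xor_assoc,
    Bool.xor_comm (w j o)]

theorem fl_invol (z : J → Ordinal.{0} → Bool) (p : Cn C L) : fl z (fl z p) = p := by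
  rw [fl_fl]
  have : (fun j o => xor (z j o) (z j o)) = fun (_ : J) (_ : Ordinal.{0}) => false := by
    funext j o
    exact Bool.xor_self _
  rw [this, fl_zero]

theorem fl_comm (z w : J → Ordinal.{0} → Bool) (p : Cn C L) :
    fl z (fl w p) = fl w (fl z p) := by
  rw [fl_fl, fl_fl]
  congr 1
  funext j o
  exact Bool.xor_comm _ _

theorem rs_len_pos (K : J → Prop) (p : Cn C L) (j : J) (h : K j) : (rs K p).len j = p.len j := by
  simp only [rs]
  rw [if_pos h]

theorem rs_len_neg (K : J → Prop) (p : Cn C L) (j : J) (h : ¬ K j) : (rs K p).len j = 0 := by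
  simp only [rs]
  rw [if_neg h]

theorem rs_bit_pos (K : J → Prop) (p : Cn C L) (j : J) (h : K j) (o : Ordinal.{0}) :
    (rs K p).bit j o = p.bit j o := by
  simp only [rs]
  rw [if_pos h]

theorem not_lt_zero' {o : Ordinal.{0}} (h : o < 0) : False := absurd h (not_lt.2 zero_le)

theorem rs_fl (K : J → Prop) (z : J → Ordinal.{0} → Bool) (p : Cn C L) :
    rs K (fl z p) = fl z (rs K p) := by
  refine Cn.ext' rfl (fun j => ?_) (fun j o ho => ?_)
  · by_cases h : K j
    · rw [rs_len_pos _ _ _ h]
      exact (rs_len_pos K p j h).symm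
    · rw [rs_len_neg _ _ _ h]
      exact (rs_len_neg K p j h).symm
  · by_cases h : K j
    · rw [rs_len_pos _ _ _ h] at ho
      have h1 : o < p.len j := ho
      have h2 : o < (rs K p).len j := by rw [rs_len_pos _ _ _ h]; exact h1
      rw [rs_bit_pos _ _ _ h, fl_bit _ _ _ _ h1, fl_bit _ _ _ _ h2, rs_bit_pos _ _ _ h]
    · rw [rs_len_neg _ _ _ h] at ho
      exact (not_lt_zero' ho).elim

theorem finS_zero : FinS (fun _ _ => false) := by
  unfold FinS
  simp

theorem finS_xor (z w : J → Ordinal.{0} → Bool) (hz : FinS z) (hw : FinS w) :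
    FinS (fun j o => xor (z j o) (w j o)) := by
  refine (hz.union hw).subset ?_
  rintro j ⟨o, ho⟩
  by_cases h : z j o = true
  · left; exact ⟨o, h⟩
  · right
    refine ⟨o, ?_⟩
    have h1 : z j o = false := by simpa using h
    simpa [h1] using ho

variable [PartialOrder C] [OrderTop C]

theorem fl_le (z : J → Ordinal.{0} → Bool) (p q : Cn C L) (h : p ≤ q) : fl z p ≤ fl z q := by
  obtain ⟨h1, h2⟩ := Cn.le_def.1 h
  refine Cn.le_def.2 ⟨h1, fun j => ⟨(h2 j).1, fun o ho => ?_⟩⟩
  have ho1 : o < q.len j := ho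
  have ho2 : o < p.len j := lt_of_lt_of_le ho1 (h2 j).1
  rw [fl_bit _ _ _ _ ho1, fl_bit _ _ _ _ ho2, (h2 j).2 o ho1]

/-- the flip as an automorphism -/
noncomputable def flE (z : J → Ordinal.{0} → Bool) : Cn C L ≃o Cn C L where
  toFun := fl z
  invFun := fl z
  left_inv := fl_invol z
  right_inv := fl_invol z
  map_rel_iff' := by
    intro p q
    constructor
    · intro h
      have h1 := fl_le z _ _ h
      have h2 : fl z (fl z p) ≤ fl z (fl z q) := h1
      rwa [fl_invol, fl_invol] at h2
    · exact fl_le z p q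

theorem inv_fl (g : Cn C L ≃o Cn C L) (z : J → Ordinal.{0} → Bool) (h : ∀ p, g p = fl z p)
    (p : Cn C L) : (g⁻¹ : Cn C L ≃o Cn C L) p = fl z p := by
  have h1 : g (fl z p) = p := by rw [h, fl_invol]
  show g.symm p = fl z p
  rw [OrderIso.symm_apply_eq, h1]

end

theorem sysc_holds : P_SYSC := by
  intro hK C _ _ L hC
  classical
  refine
    { one := ⟨_, finS_zero, fun p => (fl_zero p).symm⟩
      mul := ?_
      inv := ?_
      comm := ?_
      ne := ⟨(∅ : Finset (Ordinal.{0} × ℕ))⟩
      fsub := ?_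
      fone := fun e => ⟨_, finS_zero, fun _ _ _ => rfl, fun p => (fl_zero p).symm⟩
      fmul := ?_
      finv := ?_
      dir := ?_
      le_rho := ?_
      mono := ?_
      rho_rho := ?_
      small := ?_
      rho_act := ?_
      hom := ?_ }
  · rintro g h ⟨z, hz, hg⟩ ⟨w, hw, hh⟩
    refine ⟨_, finS_xor z w hz hw, fun p => ?_⟩
    show g (h p) = _
    rw [hg, hh, fl_fl]
  · rintro g ⟨z, hz, hg⟩
    exact ⟨z, hz, inv_fl g z hg⟩
  · rintro g h ⟨z, hz, hg⟩ ⟨w, hw, hh⟩
    apply RelIso.ext
    intro p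
    show g (h p) = h (g p)
    rw [hg, hh, hh, hg, fl_comm]
  · rintro e g ⟨z, hz, -, hg⟩
    exact ⟨z, hz, hg⟩
  · rintro e g h ⟨z, hz, hz0, hg⟩ ⟨w, hw, hw0, hh⟩
    refine ⟨_, finS_xor z w hz hw, fun j hj o => ?_, fun p => ?_⟩
    · show xor (z j o) (w j o) = false
      rw [hz0 j hj, hw0 j hj]
      rfl
    · show g (h p) = _
      rw [hg, hh, fl_fl]
  · rintro e g ⟨z, hz, hz0, hg⟩
    exact ⟨z, hz, hz0, inv_fl g z hg⟩
  · intro e e'
    have E1 : Finset (Ordinal.{0} × ℕ) := e
    refine ⟨((show Finset (Ordinal.{0} × ℕ) from e) ∪ (show Finset (Ordinal.{0} × ℕ) from e') :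
      Finset (Ordinal.{0} × ℕ)), ?_⟩
    rintro g ⟨z, hz, hz0, hg⟩
    exact ⟨⟨z, hz, fun j hj => hz0 j (Finset.mem_union_left _ hj), hg⟩,
      ⟨z, hz, fun j hj => hz0 j (Finset.mem_union_right _ hj), hg⟩⟩
  · intro a p
    show p ≤ rs _ p
    refine Cn.le_def.2 ⟨le_rfl, fun j => ?_⟩
    by_cases h : j.1 < a
    · rw [rs_len_pos _ _ _ h]
      exact ⟨le_rfl, fun o _ => (rs_bit_pos _ _ _ h o).symm⟩
    · rw [rs_len_neg _ _ _ h]
      exact ⟨zero_le, fun o ho => (not_lt_zero' ho).elim⟩
  · intro a p q hpq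
    obtain ⟨h1, h2⟩ := Cn.le_def.1 hpq
    show rs _ p ≤ rs _ q
    refine Cn.le_def.2 ⟨h1, fun j => ?_⟩
    by_cases h : j.1 < a
    · rw [rs_len_pos _ _ _ h, rs_len_pos _ _ _ h]
      refine ⟨(h2 j).1, fun o ho => ?_⟩
      rw [rs_bit_pos _ _ _ h, rs_bit_pos _ _ _ h]
      exact (h2 j).2 o ho
    · rw [rs_len_neg _ _ _ h, rs_len_neg _ _ _ h]
      exact ⟨le_rfl, fun o ho => (not_lt_zero' ho).elim⟩
  · intro a b p hab
    show rs _ (rs _ p) = rs _ p
    refine Cn.ext' rfl (fun j => ?_) (fun j o ho => ?_)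
    · by_cases h : j.1 < a
      · rw [rs_len_pos (fun j => j.1 < b) _ _ (lt_of_lt_of_le h hab)]
      · by_cases h' : j.1 < b
        · rw [rs_len_pos (fun j => j.1 < b) _ _ h']
        · rw [rs_len_neg (fun j => j.1 < b) _ _ h', rs_len_neg _ _ _ h]
    · by_cases h' : j.1 < b
      · rw [rs_bit_pos (fun j => j.1 < b) _ _ h']
      · rw [rs_len_neg (fun j => j.1 < b) _ _ h'] at ho
        exact (not_lt_zero' ho).elim
  · intro a
    obtain ⟨K, e, he, -⟩ := hK.stage C L hC.cnt a
    have he' : ∀ p : {p : Cn C L // (sysC C L).rho a p = p}, ∃ k, e k = p.1 :=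
      fun p => he p.1 p.2
    choose f hf using he'
    exact small_of_injective (f := f) (fun p q hpq => Subtype.ext (by rw [← hf, ← hf, hpq]))
  · rintro g ⟨z, hz, hg⟩ a p
    rw [hg, hg]
    exact rs_fl _ z p
  · intro a p q h
    have h' : rs (fun j => j.1 < a) q ≤ rs (fun j => j.1 < a) p := h
    obtain ⟨h1, h2⟩ := Cn.le_def.1 h'
    have hc : q.c ≤ p.c := h1
    have hlow : ∀ j : J, j.1 < a → p.len j ≤ q.len j ∧ ∀ o, o < p.len j → q.bit j o = p.bit j o := by
      intro j hj
      have h3 := h2 j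
      rw [rs_len_pos _ _ _ hj, rs_len_pos _ _ _ hj] at h3
      refine ⟨h3.1, fun o ho => ?_⟩
      have h4 := h3.2 o ho
      rwa [rs_bit_pos _ _ _ hj, rs_bit_pos _ _ _ hj] at h4
    let z : J → Ordinal.{0} → Bool := fun j o =>
      decide (a ≤ j.1 ∧ o < p.len j ∧ o < q.len j ∧ p.bit j o ≠ q.bit j o)
    have hz : FinS z := by
      refine p.fin.subset ?_
      rintro j ⟨o, ho⟩
      have h3 := of_decide_eq_true ho
      intro h0
      have h4 := h3.2.1
      rw [h0] at h4
      exact not_lt_zero' h4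
    refine ⟨flE z, ⟨z, hz, fun _ => rfl⟩, ?_, ?_⟩
    · intro u hu
      have hu' : rs (fun j => j.1 < a) u = u := hu
      show fl z u = u
      refine Cn.ext' rfl (fun j => rfl) (fun j o ho => ?_)
      have ho' : o < u.len j := ho
      rw [fl_bit _ _ _ _ ho']
      have hj : j.1 < a := by
        by_contra hj
        have h3 := rs_len_neg (fun j => j.1 < a) u j hj
        rw [hu'] at h3
        rw [h3] at ho'
        exact not_lt_zero' ho'
      have h4 : z j o = false := decide_eq_false (fun h5 => absurd hj (not_lt.2 h5.1))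
      rw [h4]
      exact Bool.xor_false _
    · refine ⟨
        { c := q.c
          len := fun j => max (p.len j) (q.len j)
          bit := fun j o => if o < p.len j then p.bit j o else (fl z q).bit j o
          fin := (p.fin.union q.fin).subset (by
            intro j hj
            by_contra hcon
            apply hj
            simp only [Set.mem_union, Set.mem_setOf_eq, not_or, not_not] at hcon
            rw [hcon.1, hcon.2, max_self])
          lt := fun j => max_lt (p.lt j) (q.lt j)
          off := fun j o ho => by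
            rw [if_neg (not_lt.2 ((le_max_left _ _).trans ho))]
            exact (fl z q).off j o ((le_max_right _ _).trans ho)
          sup := fun j hj => by
            by_cases h0 : q.len j = 0
            · have h3 : p.len j ≠ 0 := by
                intro h3
                apply hj
                rw [h0, h3, max_self]
              exact lt_of_lt_of_le (p.sup j h3) (hC.anti _ _ hc)
            · exact q.sup j h0 }, ?_, ?_⟩
      · refine Cn.le_def.2 ⟨hc, fun j => ⟨le_max_left _ _, fun o ho => ?_⟩⟩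
        exact if_pos ho
      · show _ ≤ fl z q
        refine Cn.le_def.2 ⟨le_rfl, fun j => ⟨le_max_right _ _, fun o ho => ?_⟩⟩
        have ho' : o < q.len j := ho
        show (if o < p.len j then p.bit j o else (fl z q).bit j o) = (fl z q).bit j o
        by_cases h3 : o < p.len j
        · rw [if_pos h3, fl_bit _ _ _ _ ho']
          by_cases hj : j.1 < a
          · have h4 : z j o = false := decide_eq_false (fun h5 => absurd hj (not_lt.2 h5.1))
            rw [h4, (hlow j hj).2 o h3]
            exact (Bool.xor_false _).symm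
          · by_cases h5 : p.bit j o = q.bit j o
            · have h4 : z j o = false := decide_eq_false (fun h6 => h6.2.2.2 h5)
              rw [h4, h5]
              exact (Bool.xor_false _).symm
            · have h4 : z j o = true := decide_eq_true ⟨not_lt.1 hj, h3, ho', h5⟩
              rw [h4]
              cases hp : p.bit j o <;> cases hq : q.bit j o <;> simp_all
        · rw [if_neg h3]

end Pool.Agent.W477.GM.Sysc402
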